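import Pool.Agent.Y453.UF.Stm

set_option autoImplicit false

/-! (by helper555, job of helper453)
# Project UF (helper453): S_RANK and S_FIVE
-/

namespace Pool.Agent.Y453.UF.Rk

open Pool.Agent.Results.MP_9b3cbe_gt.E8Arises Pool.Agent.Y453.UF
open Finset

theorem rank : S_RANK := by
  intro n ι _ f
  have h1 : Module.finrank ℤ (⋀[ℤ]^2 (Fin n → ℤ)) = n.choose 2 := by
    rw [exteriorPower.finrank_eq, Module.finrank_fin_fun]
  let g : (⋀[ℤ]^2 (Fin n → ℤ)) ≃+ (ι → ℤ) := f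
  have h2 := LinearEquiv.finrank_eq g.toIntLinearEquiv
  rw [h1, Module.finrank_pi] at h2
  rw [← h2, Nat.choose_two_right]

section

variable {n : ℕ}


/-- products of two elements of degree one -/
lemma ne_zero_of_minor (v w : Fin n → ℤ) (a b : Fin n) (h : v a * w b - v b * w a ≠ 0) :
    ExteriorAlgebra.ι ℤ v * ExteriorAlgebra.ι ℤ w ≠ 0 := by
  classical
  intro h0
  let L : (Fin n → ℤ) →ₗ[ℤ] (Fin 2 → ℤ) :=
    LinearMap.pi ![LinearMap.proj a, LinearMap.proj b]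
  let D : (Fin n → ℤ) [⋀^Fin 2]→ₗ[ℤ] ℤ :=
    (Matrix.detRowAlternating (n := Fin 2) (R := ℤ)).compLinearMap L
  let f : ∀ i, (Fin n → ℤ) [⋀^Fin i]→ₗ[ℤ] ℤ := fun i => if hi : i = 2 then hi ▸ D else 0
  have h1 := ExteriorAlgebra.liftAlternating_apply_ιMulti (R := ℤ) f ![v, w]
  have h2 : ExteriorAlgebra.ιMulti ℤ 2 ![v, w] =
      ExteriorAlgebra.ι ℤ v * ExteriorAlgebra.ι ℤ w := by
    rw [ExteriorAlgebra.ιMulti_apply]
    simp [List.ofFn_succ]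
  rw [h2, h0, map_zero] at h1
  have h3 : f 2 = D := by simp [f]
  rw [h3] at h1
  have h4 : D ![v, w] = v a * w b - v b * w a := by
    show Matrix.det (Matrix.of fun i => L ((![v, w] : Fin 2 → Fin n → ℤ) i)) = _
    rw [Matrix.det_fin_two]
    simp [L]
  rw [h4] at h1
  exact h h1.symm

lemma comm_two (v : Fin n → ℤ) (y : (ExteriorAlgebra ℤ (Fin n → ℤ))) (hy : y ∈ ⋀[ℤ]^2 (Fin n → ℤ)) :
    y * ExteriorAlgebra.ι ℤ v = ExteriorAlgebra.ι ℤ v * y := by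
  have h1 : ∀ a : Fin n → ℤ, ExteriorAlgebra.ι ℤ a * ExteriorAlgebra.ι ℤ v =
      -(ExteriorAlgebra.ι ℤ v * ExteriorAlgebra.ι ℤ a) := fun a =>
    eq_neg_of_add_eq_zero_left (ExteriorAlgebra.ι_add_mul_swap a v)
  have h2 : y ∈ (LinearMap.range (ExteriorAlgebra.ι ℤ (M := Fin n → ℤ))) ^ 2 := hy
  rw [pow_two] at h2
  clear hy
  induction h2 using Submodule.mul_induction_on' with
  | mem_mul_mem a ha b hb =>
    obtain ⟨a, rfl⟩ := ha
    obtain ⟨b, rfl⟩ := hb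
    rw [mul_assoc, h1 b, mul_neg, ← mul_assoc, h1 a, neg_mul, neg_neg, mul_assoc]
  | add x _ z _ hx hz => rw [add_mul, mul_add, hx, hz]

end

theorem five (hT : S_TOR) : S_FIVE := by
  classical
  intro T ω φ hgen hω hφ
  have h1 : ∃ v : Fin 5 → ℤ, ExteriorAlgebra.ι ℤ v = ω := by
    have h2 : (ω : ExteriorAlgebra ℤ (Fin 5 → ℤ)) ∈
      (LinearMap.range (ExteriorAlgebra.ι ℤ (M := Fin 5 → ℤ))) ^ 1 := hω
    rw [pow_one] at h2
    exact h2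
  obtain ⟨v, hv⟩ := h1
  -- a product of two elements of degree one annihilated by `ω`
  have key : ∃ a b : Fin 5 → ℤ, ExteriorAlgebra.ι ℤ a * ExteriorAlgebra.ι ℤ b ≠ 0 ∧
      ExteriorAlgebra.ι ℤ a * ExteriorAlgebra.ι ℤ b * ExteriorAlgebra.ι ℤ v = 0 := by
    by_cases hv0 : v = 0
    · refine ⟨Pi.single 0 1, Pi.single 1 1, ?_, ?_⟩
      · apply ne_zero_of_minor _ _ 0 1
        simp
      · rw [hv0, map_zero, mul_zero]
    · obtain ⟨j, hj⟩ := Function.ne_iff.1 hv0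
      obtain ⟨i, hi⟩ := exists_ne j
      refine ⟨v, Pi.single i 1, ?_, ?_⟩
      · apply ne_zero_of_minor _ _ j i
        simp only [Pi.single_eq_same, mul_one, Pi.single_eq_of_ne (Ne.symm hi), mul_zero, sub_zero]
        exact hj
      · have h3 : ExteriorAlgebra.ι ℤ (Pi.single i 1 : Fin 5 → ℤ) * ExteriorAlgebra.ι ℤ v =
            -(ExteriorAlgebra.ι ℤ v * ExteriorAlgebra.ι ℤ (Pi.single i 1 : Fin 5 → ℤ)) :=
          eq_neg_of_add_eq_zero_left (ExteriorAlgebra.ι_add_mul_swap _ v)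
        rw [mul_assoc, h3, mul_neg, ← mul_assoc, ExteriorAlgebra.ι_sq_zero, zero_mul, neg_zero]
  obtain ⟨a, b, hne, hz⟩ := key
  have hmem : (ExteriorAlgebra.ι ℤ a * ExteriorAlgebra.ι ℤ b :
      ExteriorAlgebra ℤ (Fin 5 → ℤ)) ∈ ⋀[ℤ]^2 (Fin 5 → ℤ) := by
    show _ ∈ (LinearMap.range (ExteriorAlgebra.ι ℤ (M := Fin 5 → ℤ))) ^ 2
    rw [pow_two]
    exact Submodule.mul_mem_mul ⟨a, rfl⟩ ⟨b, rfl⟩
  refine ⟨⟨ExteriorAlgebra.ι ℤ a * ExteriorAlgebra.ι ℤ b, hmem⟩, ?_, fun y => ?_⟩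
  · intro h
    exact hne (congrArg Subtype.val h)
  · apply hT 5 T hgen
    rw [← hφ]
    have h5 : ∀ y' ω' : ExteriorAlgebra ℤ (Fin 5 → ℤ), y' ∈ ⋀[ℤ]^2 (Fin 5 → ℤ) →
        ExteriorAlgebra.ι ℤ v = ω' →
        ExteriorAlgebra.ι ℤ a * ExteriorAlgebra.ι ℤ b * y' * ω' = 0 := by
      intro y' ω' hy' h
      rw [← h, mul_assoc, comm_two v y' hy', ← mul_assoc, hz, zero_mul]
    exact h5 y.1 ω y.2 hv

end Pool.Agent.Y453.UF.Rk
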