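import Pool.Agent.Y453.UF.Stm
import Pool.Agent.Y983.UF.PAIR
import Pool.Agent.Y901.UF.Iso
import Pool.Agent.Y235.UF.Ind
import Pool.Agent.Y641.UF.Even
import Pool.Agent.Y87.UF.Odd
import Pool.Agent.Y453.UF.Rank

set_option autoImplicit false

namespace Pool.Agent.Y453.UF

open Pool.Agent.Results.MP_9b3cbe_gt.E8Arises
open Finset

/-- Isotropic vectors. -/
theorem isotropic {n : ℕ} (h4 : 4 ≤ n) {T : CohRing n} (hT : IsTopGenerator T) {ι : Type}
    [Fintype ι] {M : Matrix ι ι ℤ} (h : Arises T M) :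
    ∃ v : Fin (n - 1) → (ι → ℤ), LinearIndependent ℤ v ∧ ∀ a b, v a ⬝ᵥ M.mulVec (v b) = 0 := by
  obtain ⟨ω, φ, hω, hφ, f, hf⟩ := h
  obtain ⟨n', rfl⟩ : ∃ n', n = n' + 1 := ⟨n - 1, by omega⟩
  obtain ⟨v, hv, hv0⟩ := Pool.Agent.Y235.UF.ind n'
  refine ⟨fun a => f (v a), ?_, fun a b => ?_⟩
  · have h1 := hv.map' (f.toIntLinearEquiv : Coh (n' + 1) 2 →ₗ[ℤ] (ι → ℤ))
      (LinearMap.ker_eq_bot.mpr f.injective)
    exact h1
  · rw [← hf]
    apply Pool.Agent.Y983.UF.tor _ T hT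
    rw [← hφ, hv0 a b, zero_mul]

/-- The number of hyperbolic planes. -/
theorem planes_le {n : ℕ} (h4 : 4 ≤ n) {T : CohRing n} (hT : IsTopGenerator T) {k l : ℕ} {s : ℤ}
    (hs : s = 1 ∨ s = -1) (h : Arises T (gram k l s)) : n - 1 ≤ k := by
  obtain ⟨v, hv, hv0⟩ := isotropic h4 hT h
  exact Pool.Agent.Y901.UF.iso k l (n - 1) s hs v hv hv0

/-- The rank. -/
theorem rank_eq {n : ℕ} {T : CohRing n} {ι : Type} [Fintype ι] {M : Matrix ι ι ℤ}
    (h : Arises T M) : Fintype.card ι = n * (n - 1) / 2 := by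
  obtain ⟨ω, φ, hω, hφ, f, hf⟩ := h
  exact Pool.Agent.Y453.UF.Rk.rank n ι f

theorem rank_gram {n : ℕ} {T : CohRing n} {k l : ℕ} {s : ℤ} (h : Arises T (gram k l s)) :
    4 * k + 16 * l = n * (n - 1) := by
  have h1 := rank_eq h
  simp only [Fintype.card_sum, Fintype.card_prod, Fintype.card_fin] at h1
  have h2 : Even (n * (n - 1)) := Nat.even_mul_pred_self n
  obtain ⟨m, hm⟩ := h2
  omega

/-- Entries of the Gram matrix. -/
theorem symm_even {n : ℕ} (h4 : 4 ≤ n) {T : CohRing n} (hT : IsTopGenerator T) {ι : Type}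
    [Fintype ι] {M : Matrix ι ι ℤ} (h : Arises T M) : M.IsSymm ∧ ∀ i, Even (M i i) := by
  classical
  obtain ⟨ω, φ, hω, hφ, f, hf⟩ := h
  obtain ⟨h1, h2, h3⟩ := Pool.Agent.Y641.UFT.even Pool.Agent.Y983.UF.tor n T ω φ h4 hT hω hφ
  have key : ∀ i j, M i j = φ (f.symm (Pi.single i 1)) (f.symm (Pi.single j 1)) := by
    intro i j
    rw [hf, AddEquiv.apply_symm_apply, AddEquiv.apply_symm_apply]
    simp
  refine ⟨?_, fun i => ?_⟩
  · ext i j
    rw [Matrix.transpose_apply, key, key, h1]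
  · rw [key]
    exact h2 _

/-- Unimodular forms arise only for `n = 0, 1 mod 4`, `n ≠ 5`. -/
theorem mod_four {n : ℕ} (h4 : 4 ≤ n) {T : CohRing n} (hT : IsTopGenerator T) {ι : Type}
    [Fintype ι] [DecidableEq ι] {M : Matrix ι ι ℤ} (h : Arises T M) (hu : IsUnit M.det) :
    (n % 4 = 0 ∨ n % 4 = 1) ∧ n ≠ 5 := by
  obtain ⟨hs, he⟩ := symm_even h4 hT h
  constructor
  · by_contra hc
    have hcard := rank_eq h
    have hodd : Odd (Fintype.card ι) := by
      rw [hcard]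
      obtain ⟨q, r, hq, hr⟩ : ∃ q r, n = 4 * q + r ∧ (r = 2 ∨ r = 3) :=
        ⟨n / 4, n % 4, by omega, by omega⟩
      rcases hr with rfl | rfl
      · have : n * (n - 1) = 2 * (2 * (4 * q * q + 3 * q) + 1) := by
          subst hq
          have : 4 * q + 2 - 1 = 4 * q + 1 := by omega
          rw [this]; ring
        rw [this, Nat.mul_div_cancel_left _ (by norm_num)]
        exact ⟨_, rfl⟩
      · have : n * (n - 1) = 2 * (2 * (4 * q * q + 5 * q + 1) + 1) := by
          subst hq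
          have : 4 * q + 3 - 1 = 4 * q + 2 := by omega
          rw [this]; ring
        rw [this, Nat.mul_div_cancel_left _ (by norm_num)]
        exact ⟨_, rfl⟩
    have h1 := Pool.Agent.Y87.UF.odd ι M hs he hodd
    rw [Int.isUnit_iff] at hu
    rcases hu with hu | hu
    · rw [hu] at h1
      exact absurd h1 (by decide)
    · rw [hu] at h1
      exact absurd h1 (by decide)
  · rintro rfl
    obtain ⟨ω, φ, hω, hφ, f, hf⟩ := h
    obtain ⟨x, hx, hx0⟩ := Pool.Agent.Y453.UF.Rk.five Pool.Agent.Y983.UF.tor T ω φ hT hω hφ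
    apply hx
    have h1 : Matrix.vecMul (f x) M = 0 := by
      funext j
      have := hx0 (f.symm (Pi.single j 1))
      rw [hf, AddEquiv.apply_symm_apply, Matrix.dotProduct_mulVec] at this
      simpa using this
    have h2 : f x = 0 := by
      have h3 : Matrix.vecMul (Matrix.vecMul (f x) M) M⁻¹ = f x := by
        rw [Matrix.vecMul_vecMul, Matrix.mul_nonsing_inv _ hu, Matrix.vecMul_one]
      rw [← h3, h1, Matrix.zero_vecMul]
    exact (AddEquiv.map_eq_zero_iff f).mp h2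

end Pool.Agent.Y453.UF
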