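import Pool.Agent.Y453.UF.Asm2

/-!
Direct sums of tensor parts for any index set of the first factor (adapted from helper528's file
`Pool/Agent/Y528/UF/Tqsum.lean`), and the forms for `n = 1 mod 4`.
-/

set_option autoImplicit false

namespace Pool.Agent.Y453.UF

open Finset Pool.Agent.Y528.UF
open scoped Matrix

/-- splitting of the tensors -/
def splc (c m m' : ℕ) : (Fin c → Fin (m + m') → ℤ) ≃+ (Fin c → Fin m → ℤ) × (Fin c → Fin m' → ℤ) where
  toFun X := (fun p q => X p (Fin.castAdd m' q), fun p q => X p (Fin.natAdd m q))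
  invFun Y := fun p x => Sum.elim (Y.1 p) (Y.2 p) (finSumFinEquiv.symm x)
  left_inv X := by
    funext p x
    induction x using Fin.addCases with
    | left x => simp
    | right x => simp
  right_inv Y := by
    refine Prod.ext ?_ ?_
    · funext p q
      simp
    · funext p q
      simp
  map_add' X Y := rfl

theorem tgsum {c : ℕ} (a : Fin 3 → Fin c → Fin c → ℤ) (m k l m' k' l' : ℕ) (h1 : TG c a m k l)
    (h2 : TG c a m' k' l') : TG c a (m + m') (k + k') (l + l') := by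
  obtain ⟨b, f, hf⟩ := h1
  obtain ⟨b', f', hf'⟩ := h2
  obtain ⟨h, hh⟩ := Pool.Agent.Y96.UF.sum_gram k l k' l' 0 1
  refine ⟨fun i => glue (b i) (b' i),
    (splc c m m').trans ((AddEquiv.prodCongr f f').trans ((tr0 _ _).trans h)), fun X Y => ?_⟩
  have e := hh (f (splc c m m' X).1, f' (splc c m m' X).2, 0) (f (splc c m m' Y).1, f' (splc c m m' Y).2, 0)
  have e0 : ((0 : (Fin 2 × Fin 0) ⊕ (Fin 8 × Fin 0) → ℤ)) ⬝ᵥ (gram 0 0 1).mulVec 0 = 0 := by
    rw [zero_dotProduct]
  have e1 : -(∑ i, ∑ p, ∑ q, ∑ p', ∑ q',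
        a i p p' * (glue (b i) (b' i) : Fin (m + m') → Fin (m + m') → ℤ) q q' * X p q * Y p' q')
      = f (splc c m m' X).1 ⬝ᵥ (gram k l 1).mulVec (f (splc c m m' Y).1) +
        f' (splc c m m' X).2 ⬝ᵥ (gram k' l' 1).mulVec (f' (splc c m m' Y).2) := by
    rw [← hf, ← hf', ← neg_add, ← Finset.sum_add_distrib]
    congr 1
    refine Finset.sum_congr rfl fun i _ => ?_
    rw [← Finset.sum_add_distrib]
    refine Finset.sum_congr rfl fun p _ => ?_
    rw [Fin.sum_univ_add]
    congr 1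
    · refine Finset.sum_congr rfl fun q _ => ?_
      refine Finset.sum_congr rfl fun p' _ => ?_
      rw [Fin.sum_univ_add]
      have z : ∑ q' : Fin m', a i p p' * (glue (b i) (b' i) : Fin (m + m') → Fin (m + m') → ℤ)
          (Fin.castAdd m' q) (Fin.natAdd m q') * X p (Fin.castAdd m' q) * Y p' (Fin.natAdd m q')
          = 0 := by
        refine Finset.sum_eq_zero fun q' _ => ?_
        have : (glue (b i) (b' i) : Fin (m + m') → Fin (m + m') → ℤ)
          (Fin.castAdd m' q) (Fin.natAdd m q') = 0 := gl12 _ _ _ _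
        rw [this]; ring
      rw [z, add_zero]
      refine Finset.sum_congr rfl fun q' _ => ?_
      have : (glue (b i) (b' i) : Fin (m + m') → Fin (m + m') → ℤ)
          (Fin.castAdd m' q) (Fin.castAdd m' q') = (b i : Fin m → Fin m → ℤ) q q' := gl11 _ _ _ _
      rw [this]
      rfl
    · refine Finset.sum_congr rfl fun q _ => ?_
      refine Finset.sum_congr rfl fun p' _ => ?_
      rw [Fin.sum_univ_add]
      have z : ∑ q' : Fin m, a i p p' * (glue (b i) (b' i) : Fin (m + m') → Fin (m + m') → ℤ)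
          (Fin.natAdd m q) (Fin.castAdd m' q') * X p (Fin.natAdd m q) * Y p' (Fin.castAdd m' q')
          = 0 := by
        refine Finset.sum_eq_zero fun q' _ => ?_
        have : (glue (b i) (b' i) : Fin (m + m') → Fin (m + m') → ℤ)
          (Fin.natAdd m q) (Fin.castAdd m' q') = 0 := gl21 _ _ _ _
        rw [this]; ring
      rw [z, zero_add]
      refine Finset.sum_congr rfl fun q' _ => ?_
      have : (glue (b i) (b' i) : Fin (m + m') → Fin (m + m') → ℤ)
          (Fin.natAdd m q) (Fin.natAdd m q') = (b' i : Fin m' → Fin m' → ℤ) q q' := gl22 _ _ _ _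
      rw [this]
      rfl
  rw [e1]
  refine Eq.trans ?_ e.symm
  dsimp only
  rw [e0, add_zero]

theorem tg0 {c : ℕ} (a : Fin 3 → Fin c → Fin c → ℤ) : TG c a 0 0 0 := by
  refine ⟨fun _ => 0, ⟨⟨fun _ => 0, fun _ => 0, fun X => ?_, fun X => ?_⟩, fun X Y => ?_⟩,
    fun X Y => ?_⟩
  · funext p q
    exact q.elim0
  · funext t
    rcases t with ⟨_, t⟩ | ⟨_, t⟩ <;> exact t.elim0
  · funext t
    rcases t with ⟨_, t⟩ | ⟨_, t⟩ <;> exact t.elim0
  · have h1 : ∀ Z : (Fin 2 × Fin 0) ⊕ (Fin 8 × Fin 0) → ℤ, Z ⬝ᵥ (gram 0 0 1).mulVec Z = 0 := by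
      intro Z
      have : Z = 0 := by
        funext t
        rcases t with ⟨_, t⟩ | ⟨_, t⟩ <;> exact t.elim0
      rw [this, zero_dotProduct]
    have h2 : -(∑ i, ∑ p, ∑ q : Fin 0, ∑ p', ∑ q' : Fin 0,
        a i p p' * ((0 : AltM (Fin 0)) : Fin 0 → Fin 0 → ℤ) q q' * X p q * Y p' q') = 0 := by
      simp
    exact h2.trans (h1 0).symm


/-- the tensor part on `Z^9 ⊗ Z^(4t)` -/
theorem tg9 (t : ℕ) : TG 9 al9 (4 * t) (18 * t) 0 := by
  induction t with
  | zero => exact tg0 al9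
  | succ t ih => exact tgsum al9 _ _ _ _ _ _ ih Pool.Agent.Y675.UFT.tens9

/-- `n = 1 mod 4` -/
theorem ex_odd_quad (h4 : S_TQ4) (t l : ℕ) (hl : 2 * l ≤ t * (t - 1)) :
    ∃ k, 4 * k + 16 * l = (9 + 4 * t) * (9 + 4 * t - 1) ∧ Ex (9 + 4 * t) k l := by
  rcases t with _ | j
  · obtain rfl : l = 0 := by omega
    exact ⟨18, by norm_num, ex9⟩
  · rw [Nat.add_sub_cancel] at hl
    obtain ⟨k, hk, hex⟩ := (ex_even h4 j).1 l hl
    refine ⟨18 + (k + 18 * (j + 1)), ?_, ?_⟩
    · have h1 : 4 * (j + 1) - 1 = 4 * j + 3 := by omega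
      have h2 : 9 + 4 * (j + 1) - 1 = 4 * j + 12 := by omega
      rw [h1] at hk
      rw [h2]
      nlinarith
    · have := ex_step al9_sk bs9 hex (tg9 (j + 1))
      rwa [Nat.add_zero, Nat.zero_add] at this

end Pool.Agent.Y453.UF
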