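import Pool.Agent.Y453.UF.Stm

set_option autoImplicit false

namespace Pool.Agent.Y453.UF

open Finset

/-- three skew 4x4 matrices -/
def A4 (i : Fin 3) : Matrix (Fin 4) (Fin 4) ℤ :=
  ![!![0, 1, 0, 1; -1, 0, 1, 0; 0, -1, 0, 0; -1, 0, 0, 0],
    !![0, 0, 1, -1; 0, 0, -1, 0; -1, 1, 0, 1; 1, 0, -1, 0],
    !![0, 0, -1, 0; 0, 0, 0, 1; 1, 0, 0, 0; 0, -1, 0, 0]] i

/-- three skew 4x4 matrices for the other factor -/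
def B4m (i : Fin 3) : Matrix (Fin 4) (Fin 4) ℤ :=
  ![!![0, -1, 1, 0; 1, 0, 0, -1; -1, 0, 0, -1; 0, 1, 1, 0],
    !![0, 1, 1, 1; -1, 0, 1, -1; -1, -1, 0, 0; -1, 1, 0, 0],
    !![0, 0, 0, 1; 0, 0, 1, 0; 0, -1, 0, 0; -1, 0, 0, 0]] i

/-- three two-forms on `Z^8`: two copies of `A4 i` -/
def aln (i : Fin 3) : Fin 8 → Fin 8 → ℤ := fun p q =>
  if h : p.val < 4 ∧ q.val < 4 then A4 i ⟨p.val, h.1⟩ ⟨q.val, h.2⟩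
  else if h' : 4 ≤ p.val ∧ 4 ≤ q.val then A4 i ⟨p.val - 4, by omega⟩ ⟨q.val - 4, by omega⟩ else 0

/-- the tensor form of `a` and suitable skew matrices `b` on `Z^8 ⊗ Z^m` is `k H ⊕ l E8` -/
def TQ (a : Fin 3 → Fin 8 → Fin 8 → ℤ) (m k l : ℕ) : Prop := ∃ b : Fin 3 → AltM (Fin m),
  ∃ f : (Fin 8 → Fin m → ℤ) ≃+ ((Fin 2 × Fin k) ⊕ (Fin 8 × Fin l) → ℤ), ∀ X Y,
    -(∑ i, ∑ p, ∑ q, ∑ p', ∑ q',
        a i p p' * (b i : Fin m → Fin m → ℤ) q q' * X p q * Y p' q')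
      = f X ⬝ᵥ (gram k l 1).mulVec (f Y)

/-- TQSUM -/
def S_TQSUM : Prop := ∀ (a : Fin 3 → Fin 8 → Fin 8 → ℤ) (m k l m' k' l' : ℕ), TQ a m k l →
  TQ a m' k' l' → TQ a (m + m') (k + k') (l + l')

/-- TQ0 -/
def S_TQ0 : Prop := ∀ (a : Fin 3 → Fin 8 → Fin 8 → ℤ), TQ a 0 0 0

/-- TQ2 -/
def S_TQ2 : Prop := TQ aln 2 8 0

/-- TQ4 -/
def S_TQ4 : Prop := TQ aln 4 8 2

end Pool.Agent.Y453.UF
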