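import Pool.Agent.Y453.UF.Stm3

/-! Tables: the form `-Σ A4 i ⊗ B4m i` on `Z^4 ⊗ Z^4` (index `4 p + q`) is `4 H ⊕ E8`. -/

set_option autoImplicit false

namespace Pool.Agent.Y453.UF.T16

open Finset Pool.Agent.Y453.UF

/-- rows: the new basis (first the vectors `u_1..u_4`, then `v_1..v_4` of the planes, then E8) -/
def PTab : List (List ℤ) :=
  [[0, 0, 0, 1, 0, 0, 0, 0, 0, 0, 0, 0, 0, 0, 0, 0],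
   [0, 0, 1, 0, 0, 0, 0, 0, 0, 0, 0, 0, 0, 0, 0, 0],
   [0, 0, 0, 0, 0, 0, 0, 0, 0, 0, 0, 1, 0, 0, 0, 0],
   [0, 0, 0, 1, 0, 0, 0, 0, 0, 0, 1, 0, 0, 0, 0, 0],
   [0, 0, 0, 0, 0, -1, 0, 0, 0, 0, 0, 0, 0, 0, 0, 0],
   [0, 0, 0, 0, 0, 0, 0, 0, 0, 0, 0, 0, 0, 0, 0, 1],
   [0, 1, 0, 0, 0, 0, 0, 0, 0, 0, 0, 0, 0, 0, 0, 0],
   [0, 0, 0, 0, 0, 0, 0, -1, 0, 0, 0, 1, 0, 0, 0, 1],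
   [0, 0, 1, 0, 1, -1, 0, 0, 0, 0, 1, 0, 0, 1, 1, 0],
   [0, 1, -1, 0, 0, 0, -1, 0, 0, 1, 0, 0, 0, 0, 0, 0],
   [0, -1, 1, 1, 1, 1, 0, -1, -1, -1, 0, 0, -1, -1, 1, 0],
   [1, 0, -1, -1, -1, 0, 0, 0, 1, 0, -1, 1, 1, 0, -1, 0],
   [-1, 0, 1, -1, 0, 0, 1, 0, 0, 0, 0, -2, -1, 0, 0, 0],
   [0, 0, 0, 1, 0, 0, -1, 1, 0, 0, 1, 1, 1, 0, 0, -1],
   [0, 0, -1, 1, 0, -1, 0, -1, -1, 0, 0, 1, 0, 0, 1, 2],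
   [0, 1, 1, 0, 0, 1, 0, 2, 1, 0, 1, -2, 0, 1, -1, -2]]

/-- inverse -/
def QTab : List (List ℤ) :=
  [[-1, 1, 0, 1, 0, 0, 0, -1, 0, 0, 0, 0, -1, -1, 0, 0],
   [0, 0, 0, 0, 0, 0, 1, 0, 0, 0, 0, 0, 0, 0, 0, 0],
   [0, 1, 0, 0, 0, 0, 0, 0, 0, 0, 0, 0, 0, 0, 0, 0],
   [1, 0, 0, 0, 0, 0, 0, 0, 0, 0, 0, 0, 0, 0, 0, 0],
   [0, -1, -1, 0, 0, 1, 1, 0, 0, -1, -1, -2, -2, -1, -2, -1],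
   [0, 0, 0, 0, -1, 0, 0, 0, 0, 0, 0, 0, 0, 0, 0, 0],
   [0, 0, 0, 1, -1, 0, 1, -1, 0, -1, -1, -1, -1, -1, -1, -1],
   [0, 0, 1, 0, 0, 1, 0, -1, 0, 0, 0, 0, 0, 0, 0, 0],
   [2, -1, 1, 0, 0, 1, 0, 0, 1, 1, 1, 2, 2, 1, 0, 0],
   [0, 1, 0, 1, -1, 0, 0, -1, 0, 0, -1, -1, -1, -1, -1, -1],
   [-1, 0, 0, 1, 0, 0, 0, 0, 0, 0, 0, 0, 0, 0, 0, 0],
   [0, 0, 1, 0, 0, 0, 0, 0, 0, 0, 0, 0, 0, 0, 0, 0],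
   [0, 0, -2, 0, -1, 0, 1, 0, 0, -1, -1, -1, -1, 0, -1, -1],
   [0, 0, 0, -1, 0, -1, -1, 1, 0, 0, 0, 0, 0, 0, 1, 1],
   [1, 0, 1, 0, -1, 0, 0, -1, 1, 1, 1, 2, 2, 1, 1, 0],
   [0, 0, 0, 0, 0, 1, 0, 0, 0, 0, 0, 0, 0, 0, 0, 0]]

/-- the form -/
def TTab : List (List ℤ) :=
  [[0, 0, 0, 0, 0, 1, -1, 0, 0, -1, -1, 0, 0, 2, 0, 1],
   [0, 0, 0, 0, -1, 0, 0, 1, 1, 0, 0, 1, -2, 0, 1, 0],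
   [0, 0, 0, 0, 1, 0, 0, 1, 1, 0, 0, 0, 0, -1, 0, 1],
   [0, 0, 0, 0, 0, -1, -1, 0, 0, -1, 0, 0, -1, 0, -1, 0],
   [0, -1, 1, 0, 0, 0, 0, 0, 0, 2, 0, 1, 0, 0, 0, -1],
   [1, 0, 0, -1, 0, 0, 0, 0, -2, 0, 1, 0, 0, 0, -1, 0],
   [-1, 0, 0, -1, 0, 0, 0, 0, 0, -1, 0, 1, 0, 1, 0, 0],
   [0, 1, 1, 0, 0, 0, 0, 0, -1, 0, -1, 0, 1, 0, 0, 0],
   [0, 1, 1, 0, 0, -2, 0, -1, 0, 0, 0, 0, 0, -1, -1, -1],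
   [-1, 0, 0, -1, 2, 0, -1, 0, 0, 0, 0, 0, 1, 0, -1, 1],
   [-1, 0, 0, 0, 0, 1, 0, -1, 0, 0, 0, 0, 1, 1, 0, 0],
   [0, 1, 0, 0, 1, 0, 1, 0, 0, 0, 0, 0, 1, -1, 0, 0],
   [0, -2, 0, -1, 0, 0, 0, 1, 0, 1, 1, 1, 0, 0, 0, 0],
   [2, 0, -1, 0, 0, 0, 1, 0, -1, 0, 1, -1, 0, 0, 0, 0],
   [0, 1, 0, -1, 0, -1, 0, 0, -1, -1, 0, 0, 0, 0, 0, 0],
   [1, 0, 1, 0, -1, 0, 0, 0, -1, 1, 0, 0, 0, 0, 0, 0]]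

/-- `P T` -/
def PTTab : List (List ℤ) :=
  [[0, 0, 0, 0, 0, -1, -1, 0, 0, -1, 0, 0, -1, 0, -1, 0],
   [0, 0, 0, 0, 1, 0, 0, 1, 1, 0, 0, 0, 0, -1, 0, 1],
   [0, 1, 0, 0, 1, 0, 1, 0, 0, 0, 0, 0, 1, -1, 0, 0],
   [-1, 0, 0, 0, 0, 0, -1, -1, 0, -1, 0, 0, 0, 1, -1, 0],
   [-1, 0, 0, 1, 0, 0, 0, 0, 2, 0, -1, 0, 0, 0, 1, 0],
   [1, 0, 1, 0, -1, 0, 0, 0, -1, 1, 0, 0, 0, 0, 0, 0],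
   [0, 0, 0, 0, -1, 0, 0, 1, 1, 0, 0, 1, -2, 0, 1, 0],
   [1, 0, 0, 0, 0, 0, 1, 0, 0, 1, 1, 0, 0, -1, 0, 0],
   [0, 0, 0, 0, 1, 0, 1, 0, 1, 1, 0, 0, 1, 0, 1, 0],
   [0, 0, 0, 0, 0, 0, -1, 0, 0, 1, 0, 0, -1, 0, 0, 0],
   [0, 0, 0, 0, 0, 0, -1, 0, -1, -1, 0, 0, -1, 0, -1, 0],
   [1, 0, 0, 0, 0, 0, 1, 0, 0, 0, 0, 0, 1, 0, 0, 0],
   [-1, 0, 0, 0, -1, 0, 0, 0, 1, 0, 0, 0, -1, 0, 1, 0],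
   [-1, 0, 0, 0, 2, 0, 0, 0, 0, 0, 0, 0, 2, -1, -1, 0],
   [1, 0, 0, 0, -2, 0, 0, 0, -1, 0, 0, 0, -1, 1, 1, 0],
   [0, 0, 0, 0, 0, 0, -1, 0, 0, -1, 0, 0, -1, 1, -1, 0]]

/-- target -/
def JTab : List (List ℤ) :=
  [[0, 0, 0, 0, 1, 0, 0, 0, 0, 0, 0, 0, 0, 0, 0, 0],
   [0, 0, 0, 0, 0, 1, 0, 0, 0, 0, 0, 0, 0, 0, 0, 0],
   [0, 0, 0, 0, 0, 0, 1, 0, 0, 0, 0, 0, 0, 0, 0, 0],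
   [0, 0, 0, 0, 0, 0, 0, 1, 0, 0, 0, 0, 0, 0, 0, 0],
   [1, 0, 0, 0, 0, 0, 0, 0, 0, 0, 0, 0, 0, 0, 0, 0],
   [0, 1, 0, 0, 0, 0, 0, 0, 0, 0, 0, 0, 0, 0, 0, 0],
   [0, 0, 1, 0, 0, 0, 0, 0, 0, 0, 0, 0, 0, 0, 0, 0],
   [0, 0, 0, 1, 0, 0, 0, 0, 0, 0, 0, 0, 0, 0, 0, 0],
   [0, 0, 0, 0, 0, 0, 0, 0, 2, 0, -1, 0, 0, 0, 0, 0],
   [0, 0, 0, 0, 0, 0, 0, 0, 0, 2, 0, -1, 0, 0, 0, 0],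
   [0, 0, 0, 0, 0, 0, 0, 0, -1, 0, 2, -1, 0, 0, 0, 0],
   [0, 0, 0, 0, 0, 0, 0, 0, 0, -1, -1, 2, -1, 0, 0, 0],
   [0, 0, 0, 0, 0, 0, 0, 0, 0, 0, 0, -1, 2, -1, 0, 0],
   [0, 0, 0, 0, 0, 0, 0, 0, 0, 0, 0, 0, -1, 2, -1, 0],
   [0, 0, 0, 0, 0, 0, 0, 0, 0, 0, 0, 0, 0, -1, 2, -1],
   [0, 0, 0, 0, 0, 0, 0, 0, 0, 0, 0, 0, 0, 0, -1, 2]]

/-- table lookup -/
def tab (L : List (List ℤ)) (i j : ℕ) : ℤ := (L.getD i []).getD j 0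

/-- kernel friendly finite sums -/
def fsum (f : Fin 16 → ℤ) : ℤ := ((List.finRange 16).map f).sum

theorem fsum_eq (f : Fin 16 → ℤ) : ∑ i, f i = fsum f := Fin.sum_univ_def f

theorem T_tab : ∀ p q p' q' : Fin 4, -(A4 0 p p' * B4m 0 q q' + A4 1 p p' * B4m 1 q q' +
    A4 2 p p' * B4m 2 q q') = tab TTab (4 * p.val + q.val) (4 * p'.val + q'.val) := by
  decide +kernel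

theorem PQ_tab : ∀ i j : Fin 16, fsum (fun k => tab PTab i k * tab QTab k j) =
    if i = j then 1 else 0 := by
  decide +kernel

theorem PT_tab : ∀ i j : Fin 16, fsum (fun k => tab PTab i k * tab TTab k j) = tab PTTab i j := by
  decide +kernel

theorem PTP_tab : ∀ i j : Fin 16, fsum (fun k => tab PTTab i k * tab PTab j k) = tab JTab i j := by
  decide +kernel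

/-- the index bijection -/
def kap : (Fin 2 × Fin 4) ⊕ (Fin 8 × Fin 1) ≃ Fin 16 :=
  (Equiv.sumCongr finProdFinEquiv finProdFinEquiv).trans finSumFinEquiv

theorem J_tab : ∀ i j : (Fin 2 × Fin 4) ⊕ (Fin 8 × Fin 1),
    tab JTab (kap i) (kap j) = gram 4 1 1 i j := by
  decide +kernel

end Pool.Agent.Y453.UF.T16
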