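import Pool.Agent.Y453.UF.Stm3
import Pool.Agent.Y780.UF.Dual
import Pool.Agent.Y983.UF.PAIR
import Pool.Agent.Y953.UF.Step
import Pool.Agent.Y96.UF.Sum
import Pool.Agent.Y154.UF.Neg
import Pool.Agent.Y641.UF.Even

set_option autoImplicit false

namespace Pool.Agent.Y453.UF

open Pool.Agent.Results.MP_9b3cbe_gt.E8Arises
open Finset

/-- Expansion of a triple product. -/
theorem expand {R : Type} [Ring R] {n : ℕ} (e : Fin n → R) (M N : Fin n → Fin n → ℤ)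
    (x y ω T : R) (w : Fin n → Fin n → Fin n → Fin n → ℤ)
    (hx : 2 • x = ∑ i, ∑ j, M i j • (e i * e j)) (hy : 2 • y = ∑ i, ∑ j, N i j • (e i * e j))
    (hval : ∀ i j k l, e i * e j * (e k * e l) * ω = w i j k l • T) :
    (4 : ℤ) • (x * y * ω) = Phi w M N • T := by
  have h0 : (4 : ℤ) • (x * y * ω) = (2 • x) * (2 • y) * ω := by
    have h2x : 2 • x = x + x := two_nsmul x
    have h2y : 2 • y = y + y := two_nsmul y
    rw [h2x, h2y]
    have : (4 : ℤ) • (x * y * ω) = x * y * ω + x * y * ω + (x * y * ω + x * y * ω) := by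
      have h4 : (4 : ℤ) = 1 + 1 + (1 + 1) := by norm_num
      rw [h4, add_smul, add_smul, one_smul]
    rw [this]
    noncomm_ring
  rw [h0, hx, hy]
  unfold Phi
  simp only [Finset.sum_smul, Finset.sum_mul]
  refine Finset.sum_congr rfl fun i _ => Finset.sum_congr rfl fun j _ => ?_
  rw [Finset.mul_sum, Finset.sum_mul]
  refine Finset.sum_congr rfl fun k _ => ?_
  rw [Finset.mul_sum, Finset.sum_mul]
  refine Finset.sum_congr rfl fun l _ => ?_
  rw [smul_mul_assoc, mul_smul_comm, smul_mul_assoc, smul_mul_assoc, hval, smul_smul, smul_smul]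
  congr 1
  ring

/-- A tensor gives a class. -/
theorem arises_of_hasGram {n : ℕ} (h4 : 4 ≤ n) {T : CohRing n} (hT : IsTopGenerator T)
    {w : Fin n → Fin n → Fin n → Fin n → ℤ} (hw : IsAlt4 w) {ι : Type} [Fintype ι]
    {M0 : Matrix ι ι ℤ} (h : HasGram w M0) : Arises T M0 := by
  obtain ⟨ω, hω, hval⟩ := Pool.Agent.Y780.UF.dual n h4 T hT w hw
  obtain ⟨g, hg⟩ := Pool.Agent.Y983.UF.pair_iso n
  obtain ⟨f, hf⟩ := h
  refine ⟨ω, fun x y => f (g.symm x) ⬝ᵥ M0.mulVec (f (g.symm y)), hω, ?_, g.symm.trans f,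
    fun x y => rfl⟩
  intro x y
  have hmem : (x : CohRing n) * (y : CohRing n) * ω ∈ Coh n n :=
    Pool.Agent.Y641.UFT.mul4' h4 (Pool.Agent.Y641.UFT.mul22 x.2 y.2) hω
  rw [← hT, AddSubgroup.mem_zmultiples_iff] at hmem
  obtain ⟨m, hm⟩ := hmem
  have hx := hg (g.symm x)
  have hy := hg (g.symm y)
  rw [AddEquiv.apply_symm_apply] at hx hy
  have e1 := expand (gen n) _ _ (x : CohRing n) (y : CohRing n) ω T w hx hy hval
  rw [hf] at e1
  have e2 : (4 : ℤ) • ((x : CohRing n) * (y : CohRing n) * ω) = (4 * m) • T := by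
    rw [← hm, smul_smul]
  have e3 : (4 * m - 4 * (f (g.symm x) ⬝ᵥ M0.mulVec (f (g.symm y)))) • T = 0 := by
    rw [sub_smul, ← e2, ← e1, sub_self]
  have e4 := Pool.Agent.Y983.UF.tor n T hT _ e3
  have e5 : m = f (g.symm x) ⬝ᵥ M0.mulVec (f (g.symm y)) := by omega
  rw [← hm, e5]

/-- The index type of the Gram matrices. -/
abbrev Idx (k l : ℕ) : Type := (Fin 2 × Fin k) ⊕ (Fin 8 × Fin l)

/-- The orthogonal sum of two forms. -/
theorem sum2 (k l k' l' : ℕ) : ∃ f : ((Idx k l → ℤ) × (Idx k' l' → ℤ)) ≃+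
    (Idx (k + k') (l + l') → ℤ), ∀ x y,
    (f x) ⬝ᵥ (gram (k + k') (l + l') 1).mulVec (f y) =
      x.1 ⬝ᵥ (gram k l 1).mulVec y.1 + x.2 ⬝ᵥ (gram k' l' 1).mulVec y.2 := by
  obtain ⟨f, hf⟩ := Pool.Agent.Y96.UF.sum_gram k l k' l' 0 1
  let e : ((Idx k l → ℤ) × (Idx k' l' → ℤ)) ≃+
      ((Idx k l → ℤ) × (Idx k' l' → ℤ) × (Idx 0 0 → ℤ)) :=
    { toFun := fun x => (x.1, x.2, 0)
      invFun := fun x => (x.1, x.2.1)
      left_inv := fun x => rfl
      right_inv := by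
        intro x
        refine Prod.ext rfl (Prod.ext rfl ?_)
        funext i
        rcases i with i | i
        · exact i.2.elim0
        · exact i.2.elim0
      map_add' := by
        intro x y
        refine Prod.ext rfl (Prod.ext rfl ?_)
        simp }
  refine ⟨e.trans f, fun x y => ?_⟩
  have := hf (e x) (e y)
  rw [AddEquiv.trans_apply, AddEquiv.trans_apply]
  refine this.trans ?_
  change x.1 ⬝ᵥ (gram k l 1).mulVec y.1 + x.2 ⬝ᵥ (gram k' l' 1).mulVec y.2 +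
    (0 : Idx 0 0 → ℤ) ⬝ᵥ (gram 0 0 1).mulVec (0 : Idx 0 0 → ℤ) = _
  rw [zero_dotProduct, add_zero]

/-- Existence of an alternating tensor on `Z^n` with form `k H ⊕ l E8`. -/
def Ex (n k l : ℕ) : Prop :=
  ∃ w : Fin n → Fin n → Fin n → Fin n → ℤ, IsAlt4 w ∧ HasGram w (gram k l 1)

/-- The data of a base: a tensor and dual vectors of three two-forms. -/
def Bs (m : ℕ) (a : Fin 3 → Fin m → Fin m → ℤ) (k l : ℕ) : Prop :=
  ∃ w : Fin m → Fin m → Fin m → Fin m → ℤ, IsAlt4 w ∧ HasGram w (gram k l 1) ∧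
    ∃ u : Fin 3 → AltM (Fin m),
    (∀ (i : Fin 3) (N : AltM (Fin m)), Phi w (u i : Fin m → Fin m → ℤ) (N : Fin m → Fin m → ℤ) =
      2 * pair (a i) (N : Fin m → Fin m → ℤ)) ∧
    ∀ i j : Fin 3, pair (a i) (u j : Fin m → Fin m → ℤ) = 0

/-- The tensor form on `Z^m ⊗ Z^n` is `k H ⊕ l E8`. -/
def TG (m : ℕ) (a : Fin 3 → Fin m → Fin m → ℤ) (n k l : ℕ) : Prop :=
  ∃ b : Fin 3 → AltM (Fin n),
  ∃ f : (Fin m → Fin n → ℤ) ≃+ ((Fin 2 × Fin k) ⊕ (Fin 8 × Fin l) → ℤ), ∀ X Y,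
    -(∑ i, ∑ p, ∑ q, ∑ p', ∑ q',
        a i p p' * (b i : Fin n → Fin n → ℤ) q q' * X p q * Y p' q')
      = f X ⬝ᵥ (gram k l 1).mulVec (f Y)

/-- The inductive step. -/
theorem ex_step {m n k0 l0 k l kt lt : ℕ} {a : Fin 3 → Fin m → Fin m → ℤ}
    (ha : ∀ i p q, a i q p = - a i p q) (hb : Bs m a k0 l0) (hn : Ex n k l)
    (ht : TG m a n kt lt) : Ex (m + n) (k0 + (k + kt)) (l0 + (l + lt)) := by
  obtain ⟨wA, hA, ⟨fA, hfA⟩, u, hu1, hu2⟩ := hb
  obtain ⟨wB, hB, fB, hfB⟩ := hn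
  obtain ⟨b, ft, hft⟩ := ht
  obtain ⟨w, hw, h, hh⟩ := Pool.Agent.Y953.UF.step (Fin m) (Fin n) wA wB hA hB 3
    (fun i => ⟨a i, ha i⟩) b u hu1 hu2
  obtain ⟨g1, hg1⟩ := sum2 k l kt lt
  obtain ⟨g2, hg2⟩ := sum2 k0 l0 (k + kt) (l + lt)
  have hG : HasGram w (gram (k0 + (k + kt)) (l0 + (l + lt)) 1) := by
    refine ⟨h.trans ((fA.prodCongr ((fB.prodCongr ft).trans g1)).trans g2), fun M N => ?_⟩
    rw [hh M N, hfA, hfB]
    have e1 : ∀ M : AltM (Fin m ⊕ Fin n),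
        (h.trans ((fA.prodCongr ((fB.prodCongr ft).trans g1)).trans g2)) M =
        g2 (fA (h M).1, g1 (fB (h M).2.1, ft (h M).2.2)) := fun M => rfl
    rw [e1, e1, hg2]
    simp only
    rw [hg1]
    simp only
    rw [← hft]
    ring
  refine ⟨_, ?_, Pool.Agent.Y154.UF.reix (Fin m ⊕ Fin n) (Fin (m + n)) finSumFinEquiv w _ _ hG⟩
  refine ⟨fun i j p q => ?_, fun i j p q => ?_, fun i j p q => ?_⟩
  · exact hw.1 _ _ _ _
  · exact hw.2.1 _ _ _ _
  · exact hw.2.2 _ _ _ _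

/-- Forms from tensors, both signs. -/
theorem arises_of_ex {n k l : ℕ} (h4 : 4 ≤ n) {T : CohRing n} (hT : IsTopGenerator T)
    (h : Ex n k l) (s : ℤ) (hs : s = 1 ∨ s = -1) : Arises T (gram k l s) := by
  obtain ⟨w, hw, hG⟩ := h
  rcases hs with rfl | rfl
  · exact arises_of_hasGram h4 hT hw hG
  · have h1 := Pool.Agent.Y154.UF.neg (Fin n) w k l 1 hG
    refine arises_of_hasGram h4 hT ?_ h1
    refine ⟨fun i j p q => ?_, fun i j p q => ?_, fun i j p q => ?_⟩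
    · dsimp only
      rw [hw.1]
    · dsimp only
      rw [hw.2.1]
    · dsimp only
      rw [hw.2.2]

end Pool.Agent.Y453.UF
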