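import Pool.Agent.Y453.UF.Base

set_option autoImplicit false

namespace Pool.Agent.Y453.UF.B4

open Finset Pool.Agent.Y453.UF

/-- table of the tensor: coefficient and sorted indices -/
def wTab : List (ℤ × Fin 4 × Fin 4 × Fin 4 × Fin 4) :=
  [(1, 0, 1, 2, 3)]

/-- comparison sign -/
def cs (x y : Fin 4) : ℤ := if x < y then 1 else if y < x then -1 else 0

/-- sign of a word of length four -/
def sg (a b c d : Fin 4) : ℤ := cs a b * cs a c * cs a d * (cs b c * cs b d * cs c d)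

/-- the index set of a word, as a bit mask -/
def msk (a b c d : Fin 4) : ℕ := 2 ^ a.val + 2 ^ b.val + 2 ^ c.val + 2 ^ d.val

/-- coefficient of a mask -/
def look (m : ℕ) : ℤ := (wTab.map fun t => if msk t.2.1 t.2.2.1 t.2.2.2.1 t.2.2.2.2 = m then t.1 else 0).sum

/-- the alternating tensor -/
def w (a b c d : Fin 4) : ℤ := sg a b c d * look (msk a b c d)

theorem cs_swap (x y : Fin 4) : cs y x = - cs x y := by
  unfold cs
  rcases lt_trichotomy x y with h | h | h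
  · simp [h, not_lt.mpr h.le]
  · subst h; simp
  · simp [h, not_lt.mpr h.le]

theorem alt : IsAlt4 w := by
  refine ⟨fun i j k l => ?_, fun i j k l => ?_, fun i j k l => ?_⟩
  · unfold w sg
    have h : msk j i k l = msk i j k l := by unfold msk; ring
    rw [h, cs_swap i j]; ring
  · unfold w sg
    have h : msk i k j l = msk i j k l := by unfold msk; ring
    rw [h, cs_swap j k]; ring
  · unfold w sg
    have h : msk i j l k = msk i j k l := by unfold msk; ring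
    rw [h, cs_swap k l]; ring

/-- the pairs -/
def prTab : List (Fin 4 × Fin 4) :=
  [(0, 1), (0, 2), (0, 3), (1, 2), (1, 3), (2, 3)]

/-- the `p`-th pair -/
def pr (p : Fin 6) : Fin 4 × Fin 4 := prTab.getD p.val (0, 1)

theorem pr_lt : ∀ p, (pr p).1 < (pr p).2 := by decide

theorem pr_inj : Function.Injective pr := by
  have h : ∀ p q : Fin 6, (pr p).1.val * 4 + (pr p).2.val = (pr q).1.val * 4 + (pr q).2.val → p = q := by decide +kernel
  intro p q hpq
  exact h p q (by rw [hpq])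

theorem pr_surj : ∀ i j : Fin 4, i < j → ∃ p, pr p = (i, j) := by decide +kernel

/-- rows: the new basis -/
def PTab : List (List ℤ) :=
  [[0, 0, 0, 1, 0, 0],
   [1, 0, 0, 0, 0, 0],
   [0, 1, 0, 0, 0, 0],
   [0, 0, 1, 0, 0, 0],
   [0, 0, 0, 0, 0, 1],
   [0, 0, 0, 0, -1, 0]]

/-- inverse of `PTab` -/
def QTab : List (List ℤ) :=
  [[0, 1, 0, 0, 0, 0],
   [0, 0, 1, 0, 0, 0],
   [0, 0, 0, 1, 0, 0],
   [1, 0, 0, 0, 0, 0],
   [0, 0, 0, 0, 0, -1],
   [0, 0, 0, 0, 1, 0]]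

/-- table of the Gram matrix -/
def GTab : List (List ℤ) :=
  [[0, 0, 0, 0, 0, 1],
   [0, 0, 0, 0, -1, 0],
   [0, 0, 0, 1, 0, 0],
   [0, 0, 1, 0, 0, 0],
   [0, -1, 0, 0, 0, 0],
   [1, 0, 0, 0, 0, 0]]

/-- `P G` -/
def PGTab : List (List ℤ) :=
  [[0, 0, 1, 0, 0, 0],
   [0, 0, 0, 0, 0, 1],
   [0, 0, 0, 0, -1, 0],
   [0, 0, 0, 1, 0, 0],
   [1, 0, 0, 0, 0, 0],
   [0, 1, 0, 0, 0, 0]]

/-- target -/
def JTab : List (List ℤ) :=
  [[0, 0, 0, 1, 0, 0],
   [0, 0, 0, 0, 1, 0],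
   [0, 0, 0, 0, 0, 1],
   [1, 0, 0, 0, 0, 0],
   [0, 1, 0, 0, 0, 0],
   [0, 0, 1, 0, 0, 0]]

/-- table lookup -/
def tab (L : List (List ℤ)) (i j : ℕ) : ℤ := (L.getD i []).getD j 0

/-- the matrix `P` -/
def P : Matrix (Fin 6) (Fin 6) ℤ := fun i j => tab PTab i j

/-- the matrix `Q` -/
def Q : Matrix (Fin 6) (Fin 6) ℤ := fun i j => tab QTab i j

/-- kernel friendly finite sums -/
def fsum (f : Fin 6 → ℤ) : ℤ := ((List.finRange 6).map f).sum

theorem fsum_eq (f : Fin 6 → ℤ) : ∑ i, f i = fsum f := Fin.sum_univ_def f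

theorem G_tab : ∀ p q : Fin 6, w (pr p).1 (pr p).2 (pr q).1 (pr q).2 = tab GTab p q := by
  decide +kernel

theorem PQ_tab : ∀ i j : Fin 6, fsum (fun k => tab PTab i k * tab QTab k j) =
    if i = j then 1 else 0 := by
  decide +kernel

theorem PG_tab : ∀ i j : Fin 6, fsum (fun k => tab PTab i k * tab GTab k j) = tab PGTab i j := by
  decide +kernel

theorem PGP_tab : ∀ i j : Fin 6, fsum (fun k => tab PGTab i k * tab PTab j k) = tab JTab i j := by
  decide +kernel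

/-- the index bijection -/
def kap : (Fin 2 × Fin 3) ⊕ (Fin 8 × Fin 0) ≃ Fin 6 :=
  (Equiv.sumCongr finProdFinEquiv finProdFinEquiv).trans finSumFinEquiv

theorem J_tab : ∀ i j : (Fin 2 × Fin 3) ⊕ (Fin 8 × Fin 0), tab JTab (kap i) (kap j) = gram 3 0 1 i j := by
  decide +kernel

theorem PQ : P * Q = 1 := by
  ext i j
  rw [Matrix.mul_apply, fsum_eq]
  change fsum (fun k => tab PTab i k * tab QTab k j) = _
  rw [PQ_tab i j, Matrix.one_apply]

theorem hasGram : HasGram w (gram 3 0 1) := by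
  apply hasGram_tables pr pr_lt pr_inj pr_surj w alt P Q PQ kap
  intro i j
  have h1 : ∀ q : Fin 6, ∑ p, P (kap i) p * w (pr p).1 (pr p).2 (pr q).1 (pr q).2 =
      tab PGTab (kap i) q := by
    intro q
    rw [fsum_eq, ← PG_tab]
    congr 1
    funext p
    rw [G_tab]
    rfl
  simp only [h1]
  rw [fsum_eq, ← J_tab i j, ← PGP_tab]
  rfl

end Pool.Agent.Y453.UF.B4
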