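import Pool.Agent.Y453.UF.Stm

set_option autoImplicit false

namespace Pool.Agent.Y453.UF

open Finset

/-- the three two-forms on `Z^9`: `al9 0 = (1,2) + (3,4) + (5,6) + (7,8)`, `al9 1 = (2,0)`,
`al9 2 = (0,1)` -/
def al9 (i : Fin 3) : Fin 9 → Fin 9 → ℤ := fun p q =>
  if i = 0 then
    (if p.val % 2 = 1 ∧ q.val = p.val + 1 then 1 else if q.val % 2 = 1 ∧ p.val = q.val + 1 then -1
      else 0)
  else if i = 1 then
    (if p.val = 2 ∧ q.val = 0 then 1 else if p.val = 0 ∧ q.val = 2 then -1 else 0)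
  else (if p.val = 0 ∧ q.val = 1 then 1 else if p.val = 1 ∧ q.val = 0 then -1 else 0)

/-- TENS9 : the tensor part on `Z^9 ⊗ Z^4` -/
def S_TENS9 : Prop := ∃ b : Fin 3 → AltM (Fin 4),
  ∃ f : (Fin 9 → Fin 4 → ℤ) ≃+ ((Fin 2 × Fin 18) ⊕ (Fin 8 × Fin 0) → ℤ), ∀ X Y,
    -(∑ i, ∑ p, ∑ q, ∑ p', ∑ q',
        al9 i p p' * (b i : Fin 4 → Fin 4 → ℤ) q q' * X p q * Y p' q')
      = f X ⬝ᵥ (gram 18 0 1).mulVec (f Y)

end Pool.Agent.Y453.UF
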