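import Pool.Agent.Y453.UF.Asm1
import Pool.Agent.Y453.UF.B4
import Pool.Agent.Y453.UF.B80
import Pool.Agent.Y453.UF.B88
import Pool.Agent.Y453.UF.B80n
import Pool.Agent.Y453.UF.B88n
import Pool.Agent.Y453.UF.B9
import Pool.Agent.Y917.UF.Tens
import Pool.Agent.Y675.UFT.Tens9
import Pool.Agent.Y528.UF.Tqsum
import Pool.Agent.Y441.UF.TQ2

set_option autoImplicit false

namespace Pool.Agent.Y453.UF

open Finset

theorem ex4 : Ex 4 3 0 := ⟨B4.w, B4.alt, B4.hasGram⟩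
theorem bs80 : Bs 8 al 14 0 := ⟨B80.w, B80.alt, B80.hasGram, B80.u, B80.u_spec, B80.u_iso⟩
theorem bs88 : Bs 8 al 10 1 := ⟨B88.w, B88.alt, B88.hasGram, B88.u, B88.u_spec, B88.u_iso⟩
theorem bs80n : Bs 8 aln 14 0 :=
  ⟨B80n.w, B80n.alt, B80n.hasGram, B80n.u, B80n.u_spec, B80n.u_iso⟩
theorem bs88n : Bs 8 aln 10 1 :=
  ⟨B88n.w, B88n.alt, B88n.hasGram, B88n.u, B88n.u_spec, B88n.u_iso⟩
theorem bs9 : Bs 9 al9 18 0 := ⟨B9.w, B9.alt, B9.hasGram, B9.u, B9.u_spec, B9.u_iso⟩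

theorem ex80 : Ex 8 14 0 := ⟨B80.w, B80.alt, B80.hasGram⟩
theorem ex88 : Ex 8 10 1 := ⟨B88.w, B88.alt, B88.hasGram⟩
theorem ex9 : Ex 9 18 0 := ⟨B9.w, B9.alt, B9.hasGram⟩

theorem al_sk (i : Fin 3) (p q : Fin 8) : al i q p = - al i p q := B80.al_skew i p q
theorem aln_sk (i : Fin 3) (p q : Fin 8) : aln i q p = - aln i p q := B80n.al_skew i p q
theorem al9_sk (i : Fin 3) (p q : Fin 9) : al9 i q p = - al9 i p q := B9.al_skew i p q

theorem tg_al (n : ℕ) (hn : 2 ≤ n) : TG 8 al n (4 * n) 0 := Pool.Agent.Y917.UF.tens n hn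

theorem ex13 : Ex 13 39 0 := ex_step al9_sk bs9 ex4 Pool.Agent.Y675.UFT.tens9

/-- linear steps -/
theorem ex_lin0 {n k l : ℕ} (hn : 2 ≤ n) (h : Ex n k l) : Ex (8 + n) (14 + (k + 4 * n)) l := by
  have := ex_step al_sk bs80 h (tg_al n hn)
  rwa [Nat.add_zero, Nat.zero_add] at this

theorem ex_lin1 {n k l : ℕ} (hn : 2 ≤ n) (h : Ex n k l) :
    Ex (8 + n) (10 + (k + 4 * n)) (1 + l) := by
  have := ex_step al_sk bs88 h (tg_al n hn)
  rwa [Nat.add_zero] at this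

/-- `n = 1 mod 4` -/
theorem ex_odd (j : ℕ) : ∀ l ≤ j, (∃ k, 4 * k + 16 * l = (9 + 8 * j) * (9 + 8 * j - 1) ∧
    Ex (9 + 8 * j) k l) ∧ (∃ k, 4 * k + 16 * l = (13 + 8 * j) * (13 + 8 * j - 1) ∧
    Ex (13 + 8 * j) k l) := by
  induction j with
  | zero =>
    intro l hl
    obtain rfl : l = 0 := by omega
    exact ⟨⟨18, by norm_num, ex9⟩, ⟨39, by norm_num, ex13⟩⟩
  | succ j ih =>
    intro l hl
    have e9 : 9 + 8 * (j + 1) = 8 + (9 + 8 * j) := by ring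
    have e13 : 13 + 8 * (j + 1) = 8 + (13 + 8 * j) := by ring
    rw [e9, e13]
    have a9 : ∀ k l : ℕ, 4 * k + 16 * l = (9 + 8 * j) * (9 + 8 * j - 1) →
        4 * (14 + (k + 4 * (9 + 8 * j))) + 16 * l =
          (8 + (9 + 8 * j)) * (8 + (9 + 8 * j) - 1) ∧
        4 * (10 + (k + 4 * (9 + 8 * j))) + 16 * (1 + l) =
          (8 + (9 + 8 * j)) * (8 + (9 + 8 * j) - 1) := by
      intro k l h
      have h1 : 9 + 8 * j - 1 = 8 + 8 * j := by omega
      have h2 : 8 + (9 + 8 * j) - 1 = 16 + 8 * j := by omega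
      rw [h1] at h
      rw [h2]
      constructor
      · nlinarith
      · nlinarith
    have a13 : ∀ k l : ℕ, 4 * k + 16 * l = (13 + 8 * j) * (13 + 8 * j - 1) →
        4 * (14 + (k + 4 * (13 + 8 * j))) + 16 * l =
          (8 + (13 + 8 * j)) * (8 + (13 + 8 * j) - 1) ∧
        4 * (10 + (k + 4 * (13 + 8 * j))) + 16 * (1 + l) =
          (8 + (13 + 8 * j)) * (8 + (13 + 8 * j) - 1) := by
      intro k l h
      have h1 : 13 + 8 * j - 1 = 12 + 8 * j := by omega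
      have h2 : 8 + (13 + 8 * j) - 1 = 20 + 8 * j := by omega
      rw [h1] at h
      rw [h2]
      constructor
      · nlinarith
      · nlinarith
    rcases Nat.eq_zero_or_pos l with rfl | hpos
    · obtain ⟨⟨k, hk, hex⟩, ⟨k', hk', hex'⟩⟩ := ih 0 (Nat.zero_le _)
      exact ⟨⟨_, (a9 k 0 hk).1, ex_lin0 (by omega) hex⟩,
        ⟨_, (a13 k' 0 hk').1, ex_lin0 (by omega) hex'⟩⟩
    · obtain ⟨l', rfl⟩ : ∃ l', l = 1 + l' := ⟨l - 1, by omega⟩
      obtain ⟨⟨k, hk, hex⟩, ⟨k', hk', hex'⟩⟩ := ih l' (by omega)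
      exact ⟨⟨_, (a9 k l' hk).2, ex_lin1 (by omega) hex⟩,
        ⟨_, (a13 k' l' hk').2, ex_lin1 (by omega) hex'⟩⟩

/-- the tensor part for the second triple -/
theorem tg_aln (h4 : S_TQ4) (n t : ℕ) (hn : 4 * t ≤ n) (he : Even n) :
    TG 8 aln n (4 * n - 8 * t) (2 * t) := by
  have two : ∀ r : ℕ, TQ aln (2 * r) (8 * r) 0 := by
    intro r
    induction r with
    | zero => exact Pool.Agent.Y528.UF.tq0 aln
    | succ r ih => exact Pool.Agent.Y528.UF.tqsum aln _ _ _ _ _ _ ih Pool.Agent.Y441.UF.TQ2.tq2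
  have four : ∀ t : ℕ, TQ aln (4 * t) (8 * t) (2 * t) := by
    intro t
    induction t with
    | zero => exact Pool.Agent.Y528.UF.tq0 aln
    | succ t ih => exact Pool.Agent.Y528.UF.tqsum aln _ _ _ _ _ _ ih h4
  obtain ⟨r, hr⟩ : ∃ r, n = 4 * t + 2 * r := by
    obtain ⟨m, hm⟩ := he
    exact ⟨m - 2 * t, by omega⟩
  have := Pool.Agent.Y528.UF.tqsum aln _ _ _ _ _ _ (four t) (two r)
  have e2 : 4 * n - 8 * t = 8 * t + 8 * r := by omega
  rw [e2, hr]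
  exact this

theorem ex_quad0 (h4 : S_TQ4) {n k l t : ℕ} (hn : 4 * t ≤ n) (he : Even n) (h : Ex n k l) :
    Ex (8 + n) (14 + (k + (4 * n - 8 * t))) (l + 2 * t) := by
  have := ex_step aln_sk bs80n h (tg_aln h4 n t hn he)
  rwa [Nat.zero_add] at this

theorem ex_quad1 (h4 : S_TQ4) {n k l t : ℕ} (hn : 4 * t ≤ n) (he : Even n) (h : Ex n k l) :
    Ex (8 + n) (10 + (k + (4 * n - 8 * t))) (1 + (l + 2 * t)) :=
  ex_step aln_sk bs88n h (tg_aln h4 n t hn he)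

/-- `n = 0 mod 4` -/
theorem ex_even (h4 : S_TQ4) (j : ℕ) : (∀ l, 2 * l ≤ (j + 1) * j →
    ∃ k, 4 * k + 16 * l = (4 * (j + 1)) * (4 * (j + 1) - 1) ∧ Ex (4 * (j + 1)) k l) ∧
    (∀ l, 2 * l ≤ (j + 2) * (j + 1) →
    ∃ k, 4 * k + 16 * l = (4 * (j + 2)) * (4 * (j + 2) - 1) ∧ Ex (4 * (j + 2)) k l) := by
  induction j with
  | zero =>
    constructor
    · intro l hl
      obtain rfl : l = 0 := by omega
      exact ⟨3, by norm_num, ex4⟩
    · intro l hl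
      obtain rfl | rfl : l = 0 ∨ l = 1 := by omega
      · exact ⟨14, by norm_num, ex80⟩
      · exact ⟨10, by norm_num, ex88⟩
  | succ j ih =>
    refine ⟨ih.2, fun l hl => ?_⟩
    -- from `n = 4 (j + 1)` to `n + 8 = 4 (j + 3)`
    have e : 4 * (j + 1 + 2) = 8 + 4 * (j + 1) := by ring
    rw [e]
    have hev : Even (4 * (j + 1)) := ⟨2 * (j + 1), by ring⟩
    have hpar : Even ((j + 1) * j) := by
      rw [mul_comm]; exact Nat.even_mul_succ_self j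
    obtain ⟨c, hc⟩ := hpar
    have hc2 : (j + 1 + 2) * (j + 1 + 1) = (j + 1) * j + 4 * (j + 1) + 2 := by ring
    rw [hc2] at hl
    -- number of blocks and the rest
    obtain ⟨t, r, ht, hlt, hr⟩ : ∃ t r, t ≤ j + 1 ∧ l = r + 2 * t ∧
        (2 * r ≤ (j + 1) * j ∨ (∃ r', r = 1 + r' ∧ 2 * r' ≤ (j + 1) * j)) := by
      by_cases h : 2 * (j + 1) ≤ l
      · refine ⟨j + 1, l - 2 * (j + 1), le_refl _, by omega, ?_⟩
        by_cases h' : 2 * (l - 2 * (j + 1)) ≤ (j + 1) * j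
        · exact Or.inl h'
        · right
          exact ⟨l - 2 * (j + 1) - 1, by omega, by omega⟩
      · refine ⟨l / 2, l % 2, by omega, by omega, ?_⟩
        rcases Nat.mod_two_eq_zero_or_one l with h0 | h0
        · left; rw [h0]; exact Nat.zero_le _
        · right; exact ⟨0, by omega, Nat.zero_le _⟩
    have key : ∀ k r : ℕ, 4 * k + 16 * r = (4 * (j + 1)) * (4 * (j + 1) - 1) →
        4 * (14 + (k + (4 * (4 * (j + 1)) - 8 * t))) + 16 * (r + 2 * t) =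
          (8 + 4 * (j + 1)) * (8 + 4 * (j + 1) - 1) ∧
        4 * (10 + (k + (4 * (4 * (j + 1)) - 8 * t))) + 16 * (1 + (r + 2 * t)) =
          (8 + 4 * (j + 1)) * (8 + 4 * (j + 1) - 1) := by
      intro k r h
      obtain ⟨d, hd⟩ : ∃ d, 4 * (4 * (j + 1)) - 8 * t = d := ⟨_, rfl⟩
      have hd' : d + 8 * t = 4 * (4 * (j + 1)) := by omega
      rw [hd]
      have h1 : 4 * (j + 1) - 1 = 4 * j + 3 := by omega
      have h2 : 8 + 4 * (j + 1) - 1 = 4 * j + 11 := by omega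
      rw [h1] at h
      rw [h2]
      constructor
      · nlinarith
      · nlinarith
    rcases hr with hr | ⟨r', hr', hr2⟩
    · obtain ⟨k, hk, hex⟩ := ih.1 r hr
      refine ⟨14 + (k + (4 * (4 * (j + 1)) - 8 * t)), ?_, ?_⟩
      · rw [hlt]; exact (key k r hk).1
      · rw [hlt]; exact ex_quad0 h4 (by omega) hev hex
    · obtain ⟨k, hk, hex⟩ := ih.1 r' hr2
      refine ⟨10 + (k + (4 * (4 * (j + 1)) - 8 * t)), ?_, ?_⟩
      · rw [hlt, hr', Nat.add_assoc]; exact (key k r' hk).2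
      · rw [hlt, hr', Nat.add_assoc]; exact ex_quad1 h4 (by omega) hev hex

end Pool.Agent.Y453.UF
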