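import Pool.Agent.Y453.UF.Stm

set_option autoImplicit false

namespace Pool.Agent.Y453.UF

open Finset

/-- Sum over all ordered pairs of a product of two skew functions. -/
theorem sum_skew {n N : ℕ} (pr : Fin N → Fin n × Fin n) (hlt : ∀ p, (pr p).1 < (pr p).2)
    (hinj : Function.Injective pr) (hsurj : ∀ i j : Fin n, i < j → ∃ p, pr p = (i, j))
    (F : Fin n → Fin n → ℤ) (hd : ∀ i, F i i = 0) (hs : ∀ i j, F j i = F i j) :
    ∑ i, ∑ j, F i j = 2 * ∑ p, F (pr p).1 (pr p).2 := by
  classical
  have h1 : ∑ p, F (pr p).1 (pr p).2 = ∑ x ∈ (univ : Finset (Fin n × Fin n)).filter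
      (fun x => x.1 < x.2), F x.1 x.2 := by
    have himg : (univ : Finset (Fin n × Fin n)).filter (fun x => x.1 < x.2) =
        (univ : Finset (Fin N)).image pr := by
      ext x
      simp only [mem_filter, mem_univ, true_and, mem_image]
      constructor
      · intro h
        obtain ⟨p, hp⟩ := hsurj x.1 x.2 h
        exact ⟨p, hp⟩
      · rintro ⟨p, rfl⟩
        exact hlt p
    rw [himg, sum_image (fun a _ b _ h => hinj h)]
  have h2 : ∑ x ∈ (univ : Finset (Fin n × Fin n)).filter (fun x => x.2 < x.1), F x.1 x.2 =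
      ∑ x ∈ (univ : Finset (Fin n × Fin n)).filter (fun x => x.1 < x.2), F x.1 x.2 := by
    refine sum_bij' (fun x _ => (x.2, x.1)) (fun x _ => (x.2, x.1)) ?_ ?_ ?_ ?_ ?_
    · intro a ha
      simp only [mem_filter, mem_univ, true_and] at ha ⊢
      exact ha
    · intro a ha
      simp only [mem_filter, mem_univ, true_and] at ha ⊢
      exact ha
    · intro a _; rfl
    · intro a _; rfl
    · intro a _; exact hs _ _
  rw [← Fintype.sum_prod_type' (fun i j => F i j)]
  have h3 : ∑ x : Fin n × Fin n, F x.1 x.2 =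
      ∑ x ∈ (univ : Finset (Fin n × Fin n)).filter (fun x => x.1 < x.2), F x.1 x.2 +
      ∑ x ∈ (univ : Finset (Fin n × Fin n)).filter (fun x => x.2 < x.1), F x.1 x.2 := by
    rw [← sum_filter_add_sum_filter_not univ (fun x : Fin n × Fin n => x.1 < x.2)]
    congr 1
    apply (sum_subset _ _).symm
    · intro x hx
      simp only [mem_filter, mem_univ, true_and] at hx ⊢
      exact not_lt.mpr hx.le
    · intro x hx hx2
      simp only [mem_filter, mem_univ, true_and, not_lt] at hx hx2
      have : x.1 = x.2 := le_antisymm hx2 hx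
      rw [this]
      exact hd _
  rw [h3, h2, h1]
  ring

/-- Coordinates of skew matrices. -/
noncomputable def coord {n N : ℕ} (pr : Fin N → Fin n × Fin n) (hlt : ∀ p, (pr p).1 < (pr p).2)
    (hinj : Function.Injective pr) (hsurj : ∀ i j : Fin n, i < j → ∃ p, pr p = (i, j)) :
    AltM (Fin n) ≃+ (Fin N → ℤ) where
  toFun M := fun p => (M : Fin n → Fin n → ℤ) (pr p).1 (pr p).2
  invFun v := ⟨fun i j => ∑ p, ((if pr p = (i, j) then v p else 0) -
      (if pr p = (j, i) then v p else 0)), by
        intro i j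
        rw [← sum_neg_distrib]
        refine sum_congr rfl fun p _ => ?_
        ring⟩
  left_inv M := by
    apply Subtype.ext
    funext i j
    have hM : ∀ i j, (M : Fin n → Fin n → ℤ) j i = -(M : Fin n → Fin n → ℤ) i j := M.2
    have hd : ∀ i, (M : Fin n → Fin n → ℤ) i i = 0 := by
      intro i
      have := hM i i
      omega
    have hone : ∀ i j : Fin n, i < j →
        (∑ p, (if pr p = (i, j) then (M : Fin n → Fin n → ℤ) (pr p).1 (pr p).2 else 0) =
          (M : Fin n → Fin n → ℤ) i j) ∧
        (∑ p, (if pr p = (j, i) then (M : Fin n → Fin n → ℤ) (pr p).1 (pr p).2 else 0) = 0) := by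
      intro i j hij
      obtain ⟨p0, hp0⟩ := hsurj i j hij
      constructor
      · rw [sum_eq_single p0]
        · rw [if_pos hp0, hp0]
        · intro p _ hp
          rw [if_neg]
          intro h
          exact hp (hinj (h.trans hp0.symm))
        · intro h
          exact absurd (mem_univ _) h
      · apply sum_eq_zero
        intro p _
        rw [if_neg]
        intro h
        have := hlt p
        rw [h] at this
        exact absurd this (not_lt.mpr hij.le)
    change ∑ p, ((if pr p = (i, j) then (M : Fin n → Fin n → ℤ) (pr p).1 (pr p).2 else 0) -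
      (if pr p = (j, i) then (M : Fin n → Fin n → ℤ) (pr p).1 (pr p).2 else 0)) =
        (M : Fin n → Fin n → ℤ) i j
    rw [sum_sub_distrib]
    rcases lt_trichotomy i j with h | h | h
    · rw [(hone i j h).1, (hone i j h).2, sub_zero]
    · subst h
      rw [sub_self, hd]
    · rw [(hone j i h).1, (hone j i h).2, zero_sub, hM j i]
  right_inv v := by
    funext p
    change ∑ q, ((if pr q = ((pr p).1, (pr p).2) then v q else 0) -
      (if pr q = ((pr p).2, (pr p).1) then v q else 0)) = v p
    rw [sum_eq_single p]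
    · rw [if_pos rfl, if_neg, sub_zero]
      intro h
      have h1 := hlt p
      have h2 : (pr p).1 = (pr p).2 := congrArg Prod.fst h
      rw [h2] at h1
      exact lt_irrefl _ h1
    · intro q _ hq
      rw [if_neg, if_neg, sub_zero]
      · intro h
        have h1 := hlt q
        rw [h] at h1
        exact absurd h1 (not_lt.mpr (hlt p).le)
      · intro h
        exact hq (hinj h)
    · intro h
      exact absurd (mem_univ _) h
  map_add' M N := rfl

theorem alt_zero {I : Type} {w : I → I → I → I → ℤ} (hw : IsAlt4 w) :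
    (∀ i k l, w i i k l = 0) ∧ (∀ i j k, w i j k k = 0) ∧
      (∀ i j k l, w j i k l = -w i j k l) ∧ (∀ i j k l, w i j l k = -w i j k l) := by
  refine ⟨fun i k l => ?_, fun i j k => ?_, hw.1, hw.2.2⟩
  · have := hw.1 i i k l
    omega
  · have := hw.2.2 i j k k
    omega

/-- The form in coordinates. -/
theorem Phi_coord {n N : ℕ} (pr : Fin N → Fin n × Fin n) (hlt : ∀ p, (pr p).1 < (pr p).2)
    (hinj : Function.Injective pr) (hsurj : ∀ i j : Fin n, i < j → ∃ p, pr p = (i, j))
    (w : Fin n → Fin n → Fin n → Fin n → ℤ) (hw : IsAlt4 w) (M N' : AltM (Fin n)) :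
    Phi w (M : Fin n → Fin n → ℤ) (N' : Fin n → Fin n → ℤ) = 4 * ∑ p, ∑ q,
      w (pr p).1 (pr p).2 (pr q).1 (pr q).2 * coord pr hlt hinj hsurj M p *
        coord pr hlt hinj hsurj N' q := by
  obtain ⟨z1, z2, s1, s2⟩ := alt_zero hw
  have hM : ∀ i j, (M : Fin n → Fin n → ℤ) j i = -(M : Fin n → Fin n → ℤ) i j := M.2
  have hN : ∀ i j, (N' : Fin n → Fin n → ℤ) j i = -(N' : Fin n → Fin n → ℤ) i j := N'.2
  unfold Phi
  have inner : ∀ i j : Fin n, ∑ k, ∑ l, w i j k l * (M : Fin n → Fin n → ℤ) i j *
      (N' : Fin n → Fin n → ℤ) k l = 2 * ∑ q, w i j (pr q).1 (pr q).2 *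
        (M : Fin n → Fin n → ℤ) i j * (N' : Fin n → Fin n → ℤ) (pr q).1 (pr q).2 := by
    intro i j
    apply sum_skew pr hlt hinj hsurj (fun k l => w i j k l * (M : Fin n → Fin n → ℤ) i j *
      (N' : Fin n → Fin n → ℤ) k l)
    · intro k
      simp only [z2, zero_mul]
    · intro k l
      simp only [s2 i j k l, hN k l]
      ring
  simp only [inner]
  rw [sum_skew pr hlt hinj hsurj (fun i j => 2 * ∑ q, w i j (pr q).1 (pr q).2 *
        (M : Fin n → Fin n → ℤ) i j * (N' : Fin n → Fin n → ℤ) (pr q).1 (pr q).2)]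
  · rw [← mul_sum]
    change 2 * (2 * _) = 4 * _
    rw [← mul_assoc]
    rfl
  · intro i
    simp only [z1, zero_mul, sum_const_zero, mul_zero]
  · intro i j
    congr 1
    refine sum_congr rfl fun q _ => ?_
    rw [s1 i j, hM i j]
    ring

theorem pair_coord {n N : ℕ} (pr : Fin N → Fin n × Fin n) (hlt : ∀ p, (pr p).1 < (pr p).2)
    (hinj : Function.Injective pr) (hsurj : ∀ i j : Fin n, i < j → ∃ p, pr p = (i, j))
    (a : Fin n → Fin n → ℤ) (ha : ∀ i j, a j i = -a i j) (M : AltM (Fin n)) :
    pair a (M : Fin n → Fin n → ℤ) = 2 * ∑ p, a (pr p).1 (pr p).2 *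
      coord pr hlt hinj hsurj M p := by
  have hM : ∀ i j, (M : Fin n → Fin n → ℤ) j i = -(M : Fin n → Fin n → ℤ) i j := M.2
  unfold pair
  apply sum_skew pr hlt hinj hsurj (fun i j => a i j * (M : Fin n → Fin n → ℤ) i j)
  · intro i
    have : a i i = 0 := by
      have := ha i i
      omega
    simp only [this, zero_mul]
  · intro i j
    simp only [ha i j, hM i j]
    ring

/-- Gram matrices from tables. -/
theorem hasGram_tables {n N : ℕ} (pr : Fin N → Fin n × Fin n) (hlt : ∀ p, (pr p).1 < (pr p).2)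
    (hinj : Function.Injective pr) (hsurj : ∀ i j : Fin n, i < j → ∃ p, pr p = (i, j))
    (w : Fin n → Fin n → Fin n → Fin n → ℤ) (hw : IsAlt4 w)
    (P Q : Matrix (Fin N) (Fin N) ℤ) (hPQ : P * Q = 1)
    {ι : Type} [Fintype ι] (kap : ι ≃ Fin N) (M0 : Matrix ι ι ℤ)
    (h : ∀ i j, ∑ q, (∑ p, P (kap i) p * w (pr p).1 (pr p).2 (pr q).1 (pr q).2) * P (kap j) q =
      M0 i j) : HasGram w M0 := by
  classical
  have hQP : Q * P = 1 := mul_eq_one_comm.mp hPQ
  let E := coord pr hlt hinj hsurj
  let F : (Fin N → ℤ) ≃+ (ι → ℤ) :=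
    { toFun := fun v i => ∑ p, Q p (kap i) * v p
      invFun := fun c p => ∑ i, P (kap i) p * c i
      left_inv := by
        intro v
        funext p
        change ∑ i, P (kap i) p * ∑ q, Q q (kap i) * v q = v p
        rw [Equiv.sum_comp kap (fun j => P j p * ∑ q, Q q j * v q)]
        simp only [mul_sum]
        rw [sum_comm]
        have : ∀ q, ∑ j, P j p * (Q q j * v q) = (Q * P) q p * v q := by
          intro q
          rw [Matrix.mul_apply, sum_mul]
          refine sum_congr rfl fun j _ => ?_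
          ring
        simp only [this, hQP, Matrix.one_apply]
        simp
      right_inv := by
        intro c
        funext i
        change ∑ p, Q p (kap i) * ∑ j, P (kap j) p * c j = c i
        simp only [mul_sum]
        rw [sum_comm]
        have : ∀ j, ∑ p, Q p (kap i) * (P (kap j) p * c j) = (P * Q) (kap j) (kap i) * c j := by
          intro j
          rw [Matrix.mul_apply, sum_mul]
          refine sum_congr rfl fun p _ => ?_
          ring
        simp only [this, hPQ, Matrix.one_apply, EmbeddingLike.apply_eq_iff_eq]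
        simp
      map_add' := by
        intro a b
        funext i
        change ∑ p, Q p (kap i) * (a p + b p) = _ + _
        rw [← sum_add_distrib]
        refine sum_congr rfl fun p _ => ?_
        ring }
  have hF : ∀ v p, v p = ∑ i, P (kap i) p * F v i := fun v p => (congrFun (F.left_inv v) p).symm
  refine ⟨E.trans F, fun M N' => ?_⟩
  rw [Phi_coord pr hlt hinj hsurj w hw]
  congr 1
  change ∑ p, ∑ q, w (pr p).1 (pr p).2 (pr q).1 (pr q).2 * E M p * E N' q =
    F (E M) ⬝ᵥ M0.mulVec (F (E N'))
  have e1 : ∀ p q, w (pr p).1 (pr p).2 (pr q).1 (pr q).2 * E M p * E N' q =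
      ∑ i, ∑ j, F (E M) i * (P (kap i) p * w (pr p).1 (pr p).2 (pr q).1 (pr q).2 *
        P (kap j) q) * F (E N') j := by
    intro p q
    conv_lhs => rw [hF (E M) p, hF (E N') q]
    rw [mul_assoc, sum_mul_sum, mul_sum]
    refine sum_congr rfl fun i _ => ?_
    rw [mul_sum]
    refine sum_congr rfl fun j _ => ?_
    ring
  simp only [e1]
  have e2 : ∀ i j, M0 i j = ∑ p, ∑ q, P (kap i) p * w (pr p).1 (pr p).2 (pr q).1 (pr q).2 *
      P (kap j) q := by
    intro i j
    rw [← h i j, sum_comm]
    refine sum_congr rfl fun q _ => ?_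
    rw [sum_mul]
  simp only [dotProduct, Matrix.mulVec, e2, mul_sum, sum_mul]
  rw [sum_congr rfl (fun p _ => sum_comm)]
  rw [sum_comm]
  refine sum_congr rfl fun i _ => ?_
  rw [sum_congr rfl (fun p _ => sum_comm)]
  rw [sum_comm]
  refine sum_congr rfl fun j _ => ?_
  refine sum_congr rfl fun p _ => sum_congr rfl fun q _ => ?_
  ring

end Pool.Agent.Y453.UF
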