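import Pool.Agent.Results.MP_9b3cbe_gt.E8Arises

/-!
# Unimodular forms from cohomology classes of the torus: definitions and statements of the parts

`CohRing n`, `Coh n k`, `IsTopGenerator`, `IsFormOf`, `IsIsometricTo` are the definitions of the
starting file `Pool.Agent.Results.MP_9b3cbe_gt.E8Arises`.
-/

set_option autoImplicit false

namespace Pool.Agent.Y453.UF

open Pool.Agent.Results.MP_9b3cbe_gt.E8Arises
open Finset

/-- The Gram matrix of `k H ⊕ l (s E8)`. -/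
def gram (k l : ℕ) (s : ℤ) :
    Matrix ((Fin 2 × Fin k) ⊕ (Fin 8 × Fin l)) ((Fin 2 × Fin k) ⊕ (Fin 8 × Fin l)) ℤ :=
  Matrix.fromBlocks (Matrix.blockDiagonal fun _ : Fin k => !![0, 1; 1, 0]) 0 0
    (Matrix.blockDiagonal fun _ : Fin l => s • CartanMatrix.E₈)

/-- The form with Gram matrix `M` arises from a class in `H^(n-4)(Z^n)` (with respect to `T`). -/
def Arises {n : ℕ} (T : CohRing n) {ι : Type} [Fintype ι] (M : Matrix ι ι ℤ) : Prop :=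
  ∃ ω : CohRing n, ∃ φ : Coh n 2 → Coh n 2 → ℤ,
    ω ∈ Coh n (n - 4) ∧ IsFormOf T ω φ ∧ IsIsometricTo φ M

/-- Skew-symmetric integral matrices. -/
def AltM (I : Type) : AddSubgroup (I → I → ℤ) where
  carrier := {M | ∀ i j, M j i = -M i j}
  zero_mem' := by intro i j; simp
  add_mem' := by
    intro a b ha hb i j
    simp only [Set.mem_ofPred_eq] at ha hb
    simp only [Pi.add_apply, ha i j, hb i j]; ring
  neg_mem' := by
    intro a ha i j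
    simp only [Set.mem_ofPred_eq] at ha
    simp only [Pi.neg_apply, ha i j]

/-- Alternating four-tensors. -/
def IsAlt4 {I : Type} (w : I → I → I → I → ℤ) : Prop :=
  (∀ i j k l, w j i k l = -w i j k l) ∧ (∀ i j k l, w i k j l = -w i j k l) ∧
    (∀ i j k l, w i j l k = -w i j k l)

/-- Four times the value of the form of `w` at the bivectors `M` and `N`. -/
def Phi {I : Type} [Fintype I] (w : I → I → I → I → ℤ) (M N : I → I → ℤ) : ℤ :=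
  ∑ i, ∑ j, ∑ k, ∑ l, w i j k l * M i j * N k l

/-- Twice the value of the two-form `a` at the bivector `M`. -/
def pair {I : Type} [Fintype I] (a M : I → I → ℤ) : ℤ := ∑ i, ∑ j, a i j * M i j

/-- The form of `w` on bivectors is isometric over `Z` to the form with Gram matrix `M0`. -/
def HasGram {I : Type} [Fintype I] (w : I → I → I → I → ℤ) {ι : Type} [Fintype ι]
    (M0 : Matrix ι ι ℤ) : Prop :=
  ∃ f : AltM I ≃+ (ι → ℤ), ∀ M N : AltM I, Phi w M N = 4 * (f M ⬝ᵥ M0.mulVec (f N))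

/-- The generators of the cohomology ring in degree one. -/
noncomputable def gen (n : ℕ) (i : Fin n) : CohRing n := ExteriorAlgebra.ι ℤ (Pi.single i 1)

/-- DUAL -/
def S_DUAL : Prop := ∀ n : ℕ, 4 ≤ n → ∀ T : CohRing n, IsTopGenerator T →
  ∀ w : Fin n → Fin n → Fin n → Fin n → ℤ, IsAlt4 w →
    ∃ ω ∈ Coh n (n - 4), ∀ i j k l,
      gen n i * gen n j * (gen n k * gen n l) * ω = w i j k l • T

/-- PAIR -/
def S_PAIR : Prop := ∀ n : ℕ, ∃ g : AltM (Fin n) ≃+ Coh n 2, ∀ M : AltM (Fin n),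
  2 • (g M : CohRing n) = ∑ i, ∑ j, (M : Fin n → Fin n → ℤ) i j • (gen n i * gen n j)

/-- TOR : a generator of the top degree is not a torsion element -/
def S_TOR : Prop := ∀ n : ℕ, ∀ T : CohRing n, IsTopGenerator T → ∀ m : ℤ, m • T = 0 → m = 0

/-- STEP -/
def S_STEP : Prop := ∀ (I J : Type) [Fintype I] [LinearOrder I] [Fintype J] [LinearOrder J]
  (wA : I → I → I → I → ℤ) (wB : J → J → J → J → ℤ), IsAlt4 wA → IsAlt4 wB →
  ∀ (r : ℕ) (a : Fin r → AltM I) (b : Fin r → AltM J) (u : Fin r → AltM I),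
  (∀ (i : Fin r) (N : AltM I), Phi wA (u i : I → I → ℤ) (N : I → I → ℤ) =
    2 * pair (a i : I → I → ℤ) (N : I → I → ℤ)) →
  (∀ i j : Fin r, pair (a i : I → I → ℤ) (u j : I → I → ℤ) = 0) →
  ∃ w : I ⊕ J → I ⊕ J → I ⊕ J → I ⊕ J → ℤ, IsAlt4 w ∧
    ∃ h : AltM (I ⊕ J) ≃+ AltM I × AltM J × (I → J → ℤ), ∀ M N : AltM (I ⊕ J),
      Phi w M N = Phi wA (h M).1 (h N).1 + Phi wB (h M).2.1 (h N).2.1
        - 4 * ∑ i, ∑ p, ∑ q, ∑ p', ∑ q',
            (a i : I → I → ℤ) p p' * (b i : J → J → ℤ) q q' * (h M).2.2 p q * (h N).2.2 p' q'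

/-- the matrices `Z1 = 1`, `Z2 = E12 + E34`, `Z3 = E21 + E43` -/
def Z (i : Fin 3) : Matrix (Fin 4) (Fin 4) ℤ :=
  ![1, !![0, 1, 0, 0; 0, 0, 0, 0; 0, 0, 0, 1; 0, 0, 0, 0],
    !![0, 0, 0, 0; 1, 0, 0, 0; 0, 0, 0, 0; 0, 0, 1, 0]] i

/-- the three two-forms on `Z^8`: `[[0, Zi], [-Ziᵀ, 0]]`, the index set is `Fin 8`, the first
Lagrangian is spanned by `0, 1, 2, 3`, the second one by `4, 5, 6, 7` -/
def al (i : Fin 3) : Fin 8 → Fin 8 → ℤ := fun p q =>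
  if h : p.val < 4 ∧ 4 ≤ q.val then Z i ⟨p.val, h.1⟩ ⟨q.val - 4, by omega⟩
  else if h' : q.val < 4 ∧ 4 ≤ p.val then - Z i ⟨q.val, h'.1⟩ ⟨p.val - 4, by omega⟩ else 0

/-- TENS -/
def S_TENS : Prop := ∀ m : ℕ, 2 ≤ m → ∃ b : Fin 3 → AltM (Fin m),
  ∃ f : (Fin 8 → Fin m → ℤ) ≃+ ((Fin 2 × Fin (4 * m)) ⊕ (Fin 8 × Fin 0) → ℤ), ∀ X Y,
    -(∑ i, ∑ p, ∑ q, ∑ p', ∑ q',
        al i p p' * (b i : Fin m → Fin m → ℤ) q q' * X p q * Y p' q')
      = f X ⬝ᵥ (gram (4 * m) 0 1).mulVec (f Y)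

/-- SUM : the orthogonal sum of `k H ⊕ l (s E8)`, `k' H ⊕ l' (s E8)` and `k'' H` -/
def S_SUM : Prop := ∀ (k l k' l' k'' : ℕ) (s : ℤ),
  ∃ f : (((Fin 2 × Fin k) ⊕ (Fin 8 × Fin l) → ℤ) × ((Fin 2 × Fin k') ⊕ (Fin 8 × Fin l') → ℤ) ×
      ((Fin 2 × Fin k'') ⊕ (Fin 8 × Fin 0) → ℤ)) ≃+
      ((Fin 2 × Fin (k + k' + k'')) ⊕ (Fin 8 × Fin (l + l')) → ℤ), ∀ x y,
    (f x) ⬝ᵥ (gram (k + k' + k'') (l + l') s).mulVec (f y) =
      x.1 ⬝ᵥ (gram k l s).mulVec y.1 + x.2.1 ⬝ᵥ (gram k' l' s).mulVec y.2.1 +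
        x.2.2 ⬝ᵥ (gram k'' 0 1).mulVec y.2.2

/-- NEG : a sign change -/
def S_NEG : Prop := ∀ (I : Type) [Fintype I] (w : I → I → I → I → ℤ) (k l : ℕ) (s : ℤ),
  HasGram w (gram k l s) → HasGram (fun i j p q => - w i j p q) (gram k l (-s))

/-- REIX : reindexing -/
def S_REIX : Prop := ∀ (I J : Type) [Fintype I] [Fintype J] (e : I ≃ J)
  (w : I → I → I → I → ℤ) (ι : Type) [Fintype ι] (M0 : Matrix ι ι ℤ), HasGram w M0 →
  HasGram (fun i j k l : J => w (e.symm i) (e.symm j) (e.symm k) (e.symm l)) M0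

/-- ISO : an isotropic subgroup of rank `m` and `k H ⊕ l (s E8)` -/
def S_ISO : Prop := ∀ (k l m : ℕ) (s : ℤ), (s = 1 ∨ s = -1) →
  ∀ v : Fin m → ((Fin 2 × Fin k) ⊕ (Fin 8 × Fin l) → ℤ), LinearIndependent ℤ v →
    (∀ a b, v a ⬝ᵥ (gram k l s).mulVec (v b) = 0) → m ≤ k

/-- IND : the classes `e_0 e_i` are independent in `H^2(Z^n)` and their products vanish -/
def S_IND : Prop := ∀ n : ℕ, ∃ v : Fin n → Coh (n + 1) 2, LinearIndependent ℤ v ∧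
  ∀ a b, (v a : CohRing (n + 1)) * (v b : CohRing (n + 1)) = 0

/-- EVEN : the form of a class is even and symmetric -/
def S_EVEN : Prop := ∀ (n : ℕ) (T ω : CohRing n) (φ : Coh n 2 → Coh n 2 → ℤ), 4 ≤ n →
  IsTopGenerator T → ω ∈ Coh n (n - 4) → IsFormOf T ω φ → (∀ x y, φ x y = φ y x) ∧ (∀ x, Even (φ x x)) ∧
    (∀ x y z, φ (x + y) z = φ x z + φ y z)

/-- ODD : an even symmetric matrix of odd size has even determinant -/
def S_ODD : Prop := ∀ (ι : Type) [Fintype ι] [DecidableEq ι] (M : Matrix ι ι ℤ), M.IsSymm →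
  (∀ i, Even (M i i)) → Odd (Fintype.card ι) → Even M.det

/-- RANK : the rank of `H^2(Z^n)` -/
def S_RANK : Prop := ∀ (n : ℕ) (ι : Type) [Fintype ι] (_ : Coh n 2 ≃+ (ι → ℤ)),
  Fintype.card ι = n * (n - 1) / 2

/-- BASE : an alternating tensor on `Z^8` with given form for which `al 0, al 1, al 2` span an
isotropic subgroup of the dual form -/
def S_BASE (k l : ℕ) : Prop := ∃ w : Fin 8 → Fin 8 → Fin 8 → Fin 8 → ℤ, IsAlt4 w ∧
  HasGram w (gram k l 1) ∧ ∃ u : Fin 3 → AltM (Fin 8),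
    (∀ (i : Fin 3) (N : AltM (Fin 8)), Phi w (u i) N = 2 * pair (al i) N) ∧
      ∀ i j : Fin 3, pair (al i) (u j) = 0

/-- BASE4, BASE9 -/
def S_BASEn (n k l : ℕ) : Prop := ∃ w : Fin n → Fin n → Fin n → Fin n → ℤ, IsAlt4 w ∧
  HasGram w (gram k l 1)

/-- FIVE : for `n = 5` all forms are degenerate -/
def S_FIVE : Prop := ∀ (T ω : CohRing 5) (φ : Coh 5 2 → Coh 5 2 → ℤ), IsTopGenerator T →
  ω ∈ Coh 5 1 → IsFormOf T ω φ → ∃ x : Coh 5 2, x ≠ 0 ∧ ∀ y, φ x y = 0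

end Pool.Agent.Y453.UF
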